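import Pool.Agent.N311.SH.Stm

/-!
# The ping-pong computation

Project SH (helper311), part PP (helper507).
-/

set_option autoImplicit false
set_option linter.all false

open Set Metric Filter Topology MeasureTheory
open scoped OnePoint

namespace Pool.Agent.N507.SH

open Pool.Agent.N311.SH

theorem Tinv_coe (s : ℝ) (hs : s ≠ 0) (z : ℂ) :
    (T s hs false)⁻¹ (z : Sph) = (((s : ℂ)⁻¹ * z : ℂ) : Sph) := rfl

theorem Tinv_infty (s : ℝ) (hs : s ≠ 0) : (T s hs false)⁻¹ (∞ : Sph) = ∞ := rfl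

/-- the conjugating map -/
noncomputable def HH (s : ℝ) (hs : s ≠ 0) : Sph ≃ₜ Sph := J * T s hs false

theorem HH_apply (s : ℝ) (hs : s ≠ 0) (x : Sph) : HH s hs x = J (T s hs false x) := rfl

theorem HHinv_apply (s : ℝ) (hs : s ≠ 0) (x : Sph) :
    (HH s hs)⁻¹ x = (T s hs false)⁻¹ (J x) := rfl

theorem HHinv_zero (s : ℝ) (hs : s ≠ 0) : (HH s hs)⁻¹ ((0 : ℂ) : Sph) = ∞ := by
  rw [HHinv_apply, J_zero, Tinv_infty]

theorem HHinv_coe (s : ℝ) (hs : s ≠ 0) {z : ℂ} (hz : z ≠ 0) :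
    (HH s hs)⁻¹ (z : Sph) = (((s : ℂ)⁻¹ * z⁻¹ : ℂ) : Sph) := by
  rw [HHinv_apply, J_coe hz, Tinv_coe]

theorem norm_ge {s : ℝ} (hs : 0 < s) {RA : ℝ} (hRA : 0 < RA) {z : ℂ} (hz : z ≠ 0)
    (h : s * RA * ‖z‖ ≤ 1) : RA ≤ ‖(s : ℂ)⁻¹ * z⁻¹‖ := by
  rw [norm_mul, norm_inv, norm_inv, Complex.norm_real, Real.norm_of_nonneg hs.le]
  have hz' : 0 < ‖z‖ := norm_pos_iff.2 hz
  rw [← mul_inv, le_inv_comm₀ hRA (by positivity), inv_eq_one_div, le_div_iff₀ hRA]
  linarith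

theorem cjinv (e : Bool) {s : ℝ} (hs : s ≠ 0) {z : ℂ} (hz : z ≠ 0) :
    (cj e ((s : ℂ)⁻¹ * z⁻¹))⁻¹ = (s : ℂ) * cj e z := by
  rw [cj_mul, cj_inv, cj_inv, cj_ofReal, mul_inv, inv_inv, inv_inv]

/-- the conjugate near zero -/
theorem C_apply {A : Sph ≃ₜ Sph} {RA : ℝ} {a : ℂ} {e e' : Bool} (hA : NForm A RA a e e') {s : ℝ}
    (hs : 0 < s) {z : ℂ} (h : s * RA * ‖z‖ ≤ 1) :
    (HH s hs.ne' * A * (HH s hs.ne')⁻¹) (z : Sph) =
      J (((s : ℂ) ^ 2 * cj e z : ℂ) : Sph) := by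
  obtain ⟨hRA, hA1, hA2, hA3⟩ := hA
  show HH s hs.ne' (A ((HH s hs.ne')⁻¹ (z : Sph))) = _
  rcases eq_or_ne z 0 with rfl | hz
  · rw [HHinv_zero, hA1, HH_apply, T_coe, cj_zero, cj_zero, mul_zero, mul_zero]
  · rw [HHinv_coe _ _ hz, (hA3 _ (norm_ge hs hRA hz h)).1, cjinv e hs.ne' hz, HH_apply, T_coe,
      cj_false]
    congr 2
    ring

theorem Cinv_apply {A : Sph ≃ₜ Sph} {RA : ℝ} {a : ℂ} {e e' : Bool} (hA : NForm A RA a e e') {s : ℝ}
    (hs : 0 < s) {z : ℂ} (h : s * RA * ‖z‖ ≤ 1) :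
    HH s hs.ne' (A⁻¹ ((HH s hs.ne')⁻¹ (z : Sph))) =
      J (((s : ℂ) * a + (s : ℂ) ^ 2 * cj e' z : ℂ) : Sph) := by
  obtain ⟨hRA, hA1, hA2, hA3⟩ := hA
  rcases eq_or_ne z 0 with rfl | hz
  · rw [HHinv_zero, hA2, HH_apply, T_coe, cj_false, cj_zero, mul_zero, add_zero]
  · rw [HHinv_coe _ _ hz, (hA3 _ (norm_ge hs hRA hz h)).2, cjinv e' hs.ne' hz, HH_apply, T_coe,
      cj_false]
    congr 2
    ring

theorem Binv_apply {B : Sph ≃ₜ Sph} {RB : ℝ} {b : ℂ} {c c' : Bool} (hB : NForm B RB b c c')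
    {R : ℝ} (hR : RB ≤ R) (hR0 : 0 < R) {v : ℂ} (hv : ‖v‖ ≤ 1 / R) :
    B⁻¹ (J (v : Sph)) = ((b + cj c' v : ℂ) : Sph) := by
  obtain ⟨hRB, hB1, hB2, hB3⟩ := hB
  rcases eq_or_ne v 0 with rfl | hz
  · rw [J_zero, hB2, cj_zero, add_zero]
  · have hv0 : 0 < ‖v‖ := norm_pos_iff.2 hz
    have h1 : RB ≤ ‖v⁻¹‖ := by
      rw [norm_inv]
      refine hR.trans ?_
      rw [le_inv_comm₀ hR0 hv0, inv_eq_one_div]
      exact hv
    rw [J_coe hz, (hB3 _ h1).2, cj_inv, inv_inv]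

/-- **PP.** -/
theorem pp : S_PP := by
  intro A B RA RB a b e e' c c' hA hB
  obtain ⟨R, hRd⟩ : ∃ R, R = max RB 1 := ⟨_, rfl⟩
  have hR1 : 1 ≤ R := by rw [hRd]; exact le_max_right _ _
  have hRB : RB ≤ R := by rw [hRd]; exact le_max_left _ _
  have hR0 : 0 < R := by linarith
  have hRA0 : 0 < RA := hA.1
  have hRB0 : 0 < RB := hB.1
  obtain ⟨D, hD⟩ : ∃ D, D = 1 + R * RA + R * RB + (‖b‖ + 1) * RA + R * ‖a‖ + R * (‖b‖ + 1) :=
    ⟨_, rfl⟩
  have hb0 := norm_nonneg b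
  have ha0 := norm_nonneg a
  have p1 : 0 ≤ R * RA := by positivity
  have p2 : 0 ≤ R * RB := by positivity
  have p3 : 0 ≤ (‖b‖ + 1) * RA := by positivity
  have p4 : 0 ≤ R * ‖a‖ := by positivity
  have p5 : 0 ≤ R * (‖b‖ + 1) := by positivity
  have hD0 : 0 < D := by rw [hD]; linarith
  refine ⟨R, 1 / (2 * D), by positivity, fun s hs hs0 => ?_⟩
  rw [lt_div_iff₀ (by positivity)] at hs0
  have hsD : s * (1 + R * RA + R * RB + (‖b‖ + 1) * RA + R * ‖a‖ + R * (‖b‖ + 1)) < 1 / 2 := by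
    rw [← hD]
    linarith
  have q1 : 0 ≤ s * (R * RA) := mul_nonneg hs.le p1
  have q2 : 0 ≤ s * (R * RB) := mul_nonneg hs.le p2
  have q3 : 0 ≤ s * ((‖b‖ + 1) * RA) := mul_nonneg hs.le p3
  have q4 : 0 ≤ s * (R * ‖a‖) := mul_nonneg hs.le p4
  have q5 : 0 ≤ s * (R * (‖b‖ + 1)) := mul_nonneg hs.le p5
  have hs2 : s < 1 / 2 := by nlinarith
  have hsq : s ^ 2 ≤ s := by nlinarith
  refine ⟨HH s hs.ne', hR0, ?_, ?_⟩
  · intro z hz
    have h1 : s * RA * ‖z‖ ≤ 1 := by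
      calc s * RA * ‖z‖ ≤ s * RA * R := mul_le_mul_of_nonneg_left hz (by positivity)
        _ ≤ 1 := by nlinarith
    show B ((HH s hs.ne' * A * (HH s hs.ne')⁻¹) (z : Sph)) = _
    rw [C_apply hA hs h1]
    push_cast
    rcases eq_or_ne z 0 with rfl | hz0
    · rw [cj_zero, mul_zero, J_zero, hB.2.1, cj_zero, mul_zero]
    · have hne : (s : ℂ) ^ 2 * cj e z ≠ 0 := by
        refine mul_ne_zero (pow_ne_zero 2 (by exact_mod_cast hs.ne')) ?_
        rw [Ne, cj_eq_zero]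
        exact hz0
      have h2 : RB ≤ ‖((s : ℂ) ^ 2 * cj e z)⁻¹‖ := by
        rw [norm_inv, norm_mul, norm_pow, Complex.norm_real, Real.norm_of_nonneg hs.le, norm_cj]
        have hz' : 0 < ‖z‖ := norm_pos_iff.2 hz0
        rw [le_inv_comm₀ hRB0 (by positivity), inv_eq_one_div, le_div_iff₀ hRB0]
        calc s ^ 2 * ‖z‖ * RB ≤ s * R * RB := by
              refine mul_le_mul_of_nonneg_right ?_ hRB0.le
              exact mul_le_mul hsq hz (norm_nonneg _) hs.le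
          _ ≤ 1 := by nlinarith
      rw [J_coe hne, (hB.2.2.2 _ h2).1, cj_inv, inv_inv, cj_mul, cj_comp]
      congr 2
      rw [← Complex.ofReal_pow, cj_ofReal]
  · -- the repelling point
    obtain ⟨G, hG⟩ : ∃ G : ℂ → ℂ, ∀ v, G v = (s : ℂ) * a + (s : ℂ) ^ 2 * cj e' (b + cj c' v) :=
      ⟨_, fun v => rfl⟩
    obtain ⟨g, hg⟩ : ∃ g, g = B * (HH s hs.ne' * A * (HH s hs.ne')⁻¹) := ⟨_, rfl⟩
    rw [← hg]
    have hginv : ∀ x, g⁻¹ x = HH s hs.ne' (A⁻¹ ((HH s hs.ne')⁻¹ (B⁻¹ x))) := by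
      intro x
      rw [hg, mul_inv_rev, mul_inv_rev, mul_inv_rev, inv_inv]
      rfl
    have hRinv : 1 / R ≤ 1 := by
      rw [div_le_one hR0]
      exact hR1
    have hGb : ∀ v, ‖v‖ ≤ 1 / R → ‖b + cj c' v‖ ≤ ‖b‖ + 1 := by
      intro v hv
      refine (norm_add_le _ _).trans ?_
      rw [norm_cj]
      linarith
    have hgJ : ∀ v : ℂ, ‖v‖ ≤ 1 / R → g⁻¹ (J (v : Sph)) = J (G v : Sph) := by
      intro v hv
      rw [hginv, Binv_apply hB hRB hR0 hv, Cinv_apply hA hs, hG]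
      calc s * RA * ‖b + cj c' v‖ ≤ s * RA * (‖b‖ + 1) :=
            mul_le_mul_of_nonneg_left (hGb v hv) (by positivity)
        _ ≤ 1 := by nlinarith
    have hGn : ∀ v : ℂ, ‖v‖ ≤ 1 / R → ‖G v‖ ≤ 1 / R := by
      intro v hv
      rw [le_div_iff₀ hR0, hG]
      have h1 : ‖(s : ℂ) * a + (s : ℂ) ^ 2 * cj e' (b + cj c' v)‖ ≤
          s * ‖a‖ + s ^ 2 * (‖b‖ + 1) := by
        refine (norm_add_le _ _).trans ?_
        rw [norm_mul, norm_mul, norm_pow, Complex.norm_real, Real.norm_of_nonneg hs.le, norm_cj]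
        exact add_le_add le_rfl (mul_le_mul_of_nonneg_left (hGb v hv) (by positivity))
      have h2 : s ^ 2 * (‖b‖ + 1) ≤ s * (‖b‖ + 1) :=
        mul_le_mul_of_nonneg_right hsq (by positivity)
      calc ‖(s : ℂ) * a + (s : ℂ) ^ 2 * cj e' (b + cj c' v)‖ * R
          ≤ (s * ‖a‖ + s * (‖b‖ + 1)) * R :=
            mul_le_mul_of_nonneg_right (h1.trans (by linarith)) hR0.le
        _ ≤ 1 := by nlinarith
    have hGd : ∀ v w : ℂ, ‖G v - G w‖ = s ^ 2 * ‖v - w‖ := by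
      intro v w
      rw [hG, hG]
      have h1 : (s : ℂ) * a + (s : ℂ) ^ 2 * cj e' (b + cj c' v) -
          ((s : ℂ) * a + (s : ℂ) ^ 2 * cj e' (b + cj c' w)) =
          (s : ℂ) ^ 2 * cj e' (cj c' (v - w)) := by
        rw [cj_add, cj_add, cj_sub, cj_sub]
        ring
      rw [h1, norm_mul, norm_pow, Complex.norm_real, Real.norm_of_nonneg hs.le, norm_cj, norm_cj]
    -- the fixed point
    obtain ⟨K, hKs⟩ : ∃ K : NNReal, (K : ℝ) = s ^ 2 := ⟨⟨s ^ 2, sq_nonneg s⟩, rfl⟩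
    have hK : K < 1 := by
      rw [← NNReal.coe_lt_coe, hKs, NNReal.coe_one]
      nlinarith
    have hcon : ContractingWith K G := by
      refine ⟨hK, LipschitzWith.of_dist_le_mul fun v w => ?_⟩
      rw [dist_eq_norm, dist_eq_norm, hGd, hKs]
    obtain ⟨vs, hvs⟩ : ∃ vs, vs = ContractingWith.fixedPoint G hcon := ⟨_, rfl⟩
    have hfix : G vs = vs := by
      rw [hvs]
      exact hcon.fixedPoint_isFixedPt
    have hitn : ∀ (n : ℕ) (v : ℂ), ‖v‖ ≤ 1 / R → ‖G^[n] v‖ ≤ 1 / R := by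
      intro n
      induction n with
      | zero => exact fun v hv => hv
      | succ n ih =>
        intro v hv
        rw [Function.iterate_succ_apply]
        exact ih _ (hGn v hv)
    have hvsn : ‖vs‖ ≤ 1 / R := by
      have h1 := hcon.tendsto_iterate_fixedPoint 0
      rw [← hvs] at h1
      exact le_of_tendsto h1.norm (Eventually.of_forall fun n => hitn n 0 (by
        rw [norm_zero]
        positivity))
    have hitd : ∀ (n : ℕ) (v : ℂ), ‖G^[n] v - vs‖ = (s ^ 2) ^ n * ‖v - vs‖ := by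
      intro n
      induction n with
      | zero => intro v; simp
      | succ n ih =>
        intro v
        rw [Function.iterate_succ_apply, ih]
        conv_lhs => rw [← hfix]
        rw [hGd, pow_succ]
        ring
    have hitJ : ∀ (n : ℕ) (v : ℂ), ‖v‖ ≤ 1 / R → ((g⁻¹) ^ n) (J (v : Sph)) =
        J ((G^[n] v : ℂ) : Sph) := by
      intro n
      induction n with
      | zero => intro v _; rfl
      | succ n ih =>
        intro v hv
        rw [Function.iterate_succ_apply, ← ih _ (hGn v hv), ← hgJ v hv, pow_succ]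
        rfl
    refine ⟨J (vs : Sph), fun N hN => ?_⟩
    have hcont : Continuous fun v : ℂ => J (v : Sph) := J.continuous.comp OnePoint.continuous_coe
    have hN' : {v : ℂ | J (v : Sph) ∈ N} ∈ 𝓝 vs := hcont.continuousAt hN
    obtain ⟨t, ht, hball⟩ := Metric.mem_nhds_iff.1 hN'
    obtain ⟨n, hn⟩ := exists_pow_lt_of_lt_one (show 0 < t / 2 by positivity)
      (show s ^ 2 < 1 by nlinarith)
    refine ⟨n, fun w hw => ?_⟩
    obtain ⟨v, hv, rfl⟩ : ∃ v : ℂ, ‖v‖ ≤ 1 / R ∧ w = J (v : Sph) := by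
      induction w using OnePoint.rec with
      | infty => exact ⟨0, by rw [norm_zero]; positivity, by rw [J_zero]⟩
      | coe z =>
        have hz : R ≤ ‖z‖ := by
          by_contra hcon'
          push Not at hcon'
          exact hw z hcon' rfl
        have hz0 : z ≠ 0 := by
          rintro rfl
          rw [norm_zero] at hz
          linarith
        refine ⟨z⁻¹, ?_, ?_⟩
        · rw [norm_inv, inv_eq_one_div]
          exact one_div_le_one_div_of_le hR0 hz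
        · rw [J_coe (inv_ne_zero hz0), inv_inv]
    rw [hitJ n v hv]
    apply hball
    rw [mem_ball, dist_eq_norm, hitd]
    have h1 : ‖v - vs‖ ≤ 2 := by
      refine (norm_sub_le _ _).trans ?_
      linarith
    have h2 : 0 ≤ (s ^ 2) ^ n := by positivity
    calc (s ^ 2) ^ n * ‖v - vs‖ ≤ (s ^ 2) ^ n * 2 := mul_le_mul_of_nonneg_left h1 h2
      _ < t := by linarith

end Pool.Agent.N507.SH
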